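import Mathlib

/-!
# Outer-connected domination of line graphs and middle graphs: a counterexample
-/

namespace Pool.Agent.Results.MP_9a7beb_co.LineVsMiddle

universe u v

/-- Outer-connected dominating sets: dominating sets whose complement induces a connected graph
(the empty graph being connected). -/
def IsOCD {V : Type u} (H : SimpleGraph V) (D : Finset V) : Prop :=
  (∀ a, a ∉ D → ∃ b ∈ D, H.Adj a b) ∧ (H.induce {a | a ∉ D}).Preconnected

/-- The outer-connected domination number. -/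
noncomputable def ocdNum {V : Type u} (H : SimpleGraph V) : ℕ :=
  sInf {m | ∃ D : Finset V, IsOCD H D ∧ D.card = m}

/-- The middle graph. -/
def middleGraph {V : Type u} (G : SimpleGraph V) : SimpleGraph (V ⊕ G.edgeSet) where
  Adj p q := match p, q with
    | .inl _, .inl _ => False
    | .inl v, .inr e => v ∈ e.1
    | .inr e, .inl v => v ∈ e.1
    | .inr e, .inr f => e ≠ f ∧ ∃ v, v ∈ e.1 ∧ v ∈ f.1
  symm := ⟨by
    rintro (a | a) (b | b) h
    · exact h
    · exact h
    · exact h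
    · exact ⟨h.1.symm, h.2.imp fun v hv => ⟨hv.2, hv.1⟩⟩⟩
  loopless := ⟨by
    rintro (a | a) h
    · exact h
    · exact h.1 rfl⟩

/-! ## Invariance -/

theorem IsOCD.map {V : Type u} {W : Type v} {G : SimpleGraph V} {H : SimpleGraph W}
    (e : G ≃g H) {D : Finset V} (h : IsOCD G D) : IsOCD H (D.map e.toEquiv.toEmbedding) := by
  classical
  refine ⟨?_, ?_⟩
  · intro a ha
    have h1 : e.symm a ∉ D := by
      intro h'
      exact ha (Finset.mem_map.2 ⟨_, h', e.apply_symm_apply a⟩)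
    obtain ⟨b, hb, hab⟩ := h.1 _ h1
    refine ⟨e b, Finset.mem_map.2 ⟨b, hb, rfl⟩, ?_⟩
    have := e.map_adj_iff.2 hab
    rwa [e.apply_symm_apply] at this
  · rintro ⟨a, ha⟩ ⟨b, hb⟩
    have h1 : ∀ c, c ∉ D.map e.toEquiv.toEmbedding → e.symm c ∉ D := by
      intro c hc h'
      exact hc (Finset.mem_map.2 ⟨_, h', e.apply_symm_apply c⟩)
    have h2 : ∀ c, c ∉ D → e c ∉ D.map e.toEquiv.toEmbedding := by
      intro c hc h'
      obtain ⟨d, hd, hdc⟩ := Finset.mem_map.1 h'
      have : d = c := e.injective hdc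
      exact hc (this ▸ hd)
    obtain ⟨w⟩ := h.2 ⟨e.symm a, h1 a ha⟩ ⟨e.symm b, h1 b hb⟩
    let f : G.induce {a | a ∉ D} →g H.induce {a | a ∉ D.map e.toEquiv.toEmbedding} :=
      { toFun := fun c => ⟨e c.1, h2 c.1 c.2⟩
        map_rel' := fun {c d} hcd => e.map_adj_iff.2 hcd }
    have hw := (w.map f).reachable
    have e1 : f ⟨e.symm a, h1 a ha⟩ = ⟨a, ha⟩ := Subtype.ext (e.apply_symm_apply a)
    have e2 : f ⟨e.symm b, h1 b hb⟩ = ⟨b, hb⟩ := Subtype.ext (e.apply_symm_apply b)
    rwa [e1, e2] at hw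

theorem ocdNum_iso {V : Type u} {W : Type v} {G : SimpleGraph V} {H : SimpleGraph W}
    (e : G ≃g H) : ocdNum G = ocdNum H := by
  unfold ocdNum
  congr 1
  ext m
  constructor
  · rintro ⟨D, hD, rfl⟩
    exact ⟨_, hD.map e, Finset.card_map _⟩
  · rintro ⟨D, hD, rfl⟩
    exact ⟨_, hD.map e.symm, Finset.card_map _⟩

/-! ## The example: two windmills joined by a path -/

/-- First endpoints of the edges. -/
def fa : Fin 15 → Fin 12 := ![0, 0, 1, 0, 0, 3, 5, 5, 6, 5, 5, 8, 0, 10, 11]

/-- Second endpoints of the edges. -/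
def fb : Fin 15 → Fin 12 := ![1, 2, 2, 3, 4, 4, 6, 7, 7, 8, 9, 9, 10, 11, 5]

/-- The example. -/
def exG : SimpleGraph (Fin 12) := SimpleGraph.fromEdgeSet {s | ∃ i, s = s(fa i, fb i)}

theorem fa_ne_fb : ∀ i, fa i ≠ fb i := by decide

theorem mem_edgeSet (s : Sym2 (Fin 12)) : s ∈ exG.edgeSet ↔ ∃ i, s = s(fa i, fb i) := by
  unfold exG
  rw [SimpleGraph.edgeSet_fromEdgeSet]
  constructor
  · intro h; exact h.1
  · intro h
    refine ⟨h, ?_⟩
    obtain ⟨i, rfl⟩ := h
    simp [fa_ne_fb i]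

/-- The edges as a type. -/
def edgeMap (i : Fin 15) : exG.edgeSet := ⟨s(fa i, fb i), (mem_edgeSet _).2 ⟨i, rfl⟩⟩

theorem edge_inj : ∀ i j : Fin 15, (fa i = fa j ∧ fb i = fb j ∨ fa i = fb j ∧ fb i = fa j) →
    i = j := by decide

theorem edgeMap_bijective : Function.Bijective edgeMap := by
  constructor
  · intro i j h
    have h1 : s(fa i, fb i) = s(fa j, fb j) := congrArg Subtype.val h
    rw [Sym2.eq_iff] at h1
    exact edge_inj i j h1
  · rintro ⟨s, hs⟩
    obtain ⟨i, hi⟩ := (mem_edgeSet s).1 hs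
    exact ⟨i, Subtype.ext hi.symm⟩

/-- The edges as a type. -/
noncomputable def edgeEquiv : Fin 15 ≃ exG.edgeSet := Equiv.ofBijective _ edgeMap_bijective

/-- Two edges share an endpoint. -/
def share (i j : Fin 15) : Prop := fa i = fa j ∨ fa i = fb j ∨ fb i = fa j ∨ fb i = fb j

instance : DecidableRel share := fun i j =>
  inferInstanceAs (Decidable (fa i = fa j ∨ fa i = fb j ∨ fb i = fa j ∨ fb i = fb j))

theorem share_iff (i j : Fin 15) :
    share i j ↔ ∃ v, v ∈ (edgeMap i).1 ∧ v ∈ (edgeMap j).1 := by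
  unfold share edgeMap
  simp only [Sym2.mem_iff]
  constructor
  · rintro (h | h | h | h)
    · exact ⟨fa i, Or.inl rfl, Or.inl h⟩
    · exact ⟨fa i, Or.inl rfl, Or.inr h⟩
    · exact ⟨fb i, Or.inr rfl, Or.inl h⟩
    · exact ⟨fb i, Or.inr rfl, Or.inr h⟩
  · rintro ⟨v, rfl | rfl, h | h⟩
    · exact Or.inl h
    · exact Or.inr (Or.inl h)
    · exact Or.inr (Or.inr (Or.inl h))
    · exact Or.inr (Or.inr (Or.inr h))

theorem share_symm {i j : Fin 15} (h : share i j) : share j i := by
  rcases h with h | h | h | h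
  · exact Or.inl h.symm
  · exact Or.inr (Or.inr (Or.inl h.symm))
  · exact Or.inr (Or.inl h.symm)
  · exact Or.inr (Or.inr (Or.inr h.symm))

/-- The line graph in coordinates. -/
def LG : SimpleGraph (Fin 15) where
  Adj i j := i ≠ j ∧ share i j
  symm := ⟨fun _ _ h => ⟨h.1.symm, share_symm h.2⟩⟩
  loopless := ⟨fun _ h => h.1 rfl⟩

instance : DecidableRel LG.Adj := fun i j => inferInstanceAs (Decidable (i ≠ j ∧ share i j))

/-- The middle graph in coordinates. -/
def MG : SimpleGraph (Fin 12 ⊕ Fin 15) where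
  Adj p q := match p, q with
    | .inl _, .inl _ => False
    | .inl v, .inr i => v = fa i ∨ v = fb i
    | .inr i, .inl v => v = fa i ∨ v = fb i
    | .inr i, .inr j => i ≠ j ∧ share i j
  symm := ⟨by
    rintro (a | a) (b | b) h
    · exact h
    · exact h
    · exact h
    · exact ⟨h.1.symm, share_symm h.2⟩⟩
  loopless := ⟨by
    rintro (a | a) h
    · exact h
    · exact h.1 rfl⟩

instance : DecidableRel MG.Adj := fun p q => by
  rcases p with p | p <;> rcases q with q | q
  · exact inferInstanceAs (Decidable False)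
  · exact inferInstanceAs (Decidable (p = fa q ∨ p = fb q))
  · exact inferInstanceAs (Decidable (q = fa p ∨ q = fb p))
  · exact inferInstanceAs (Decidable (p ≠ q ∧ share p q))

/-- isomorphism with the line graph -/
noncomputable def isoL : LG ≃g exG.lineGraph where
  toEquiv := edgeEquiv
  map_rel_iff' := by
    intro i j
    change (edgeMap i ≠ edgeMap j ∧ _) ↔ (i ≠ j ∧ share i j)
    rw [edgeMap_bijective.1.ne_iff, share_iff]
    rfl

/-- isomorphism with the middle graph -/
noncomputable def isoM : MG ≃g middleGraph exG where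
  toEquiv := Equiv.sumCongr (Equiv.refl _) edgeEquiv
  map_rel_iff' := by
    rintro (i | i) (j | j)
    · exact Iff.rfl
    · change i ∈ (edgeMap j).1 ↔ _
      unfold edgeMap
      rw [Sym2.mem_iff]
      exact Iff.rfl
    · change j ∈ (edgeMap i).1 ↔ _
      unfold edgeMap
      rw [Sym2.mem_iff]
      exact Iff.rfl
    · change (edgeMap i ≠ edgeMap j ∧ _) ↔ (i ≠ j ∧ share i j)
      rw [edgeMap_bijective.1.ne_iff, share_iff]
      exact Iff.rfl

/-! ## Upper bound for the middle graph -/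

/-- An outer-connected dominating set of the middle graph. -/
def DM : Finset (Fin 12 ⊕ Fin 15) :=
  {.inl 0, .inl 5, .inl 10, .inl 11, .inr 2, .inr 5, .inr 8, .inr 11}

/-- parents in a spanning tree of the complement -/
def par : Fin 12 ⊕ Fin 15 → Fin 12 ⊕ Fin 15
  | .inl v => .inr (![0, 0, 1, 3, 4, 0, 6, 7, 9, 10, 0, 0] v)
  | .inr i => .inr (![12, 12, 0, 12, 12, 0, 14, 14, 0, 14, 14, 0, 13, 13, 13] i)

/-- ranks in a spanning tree of the complement -/
def rk : Fin 12 ⊕ Fin 15 → ℕ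
  | .inl _ => 3
  | .inr i => ![2, 2, 0, 2, 2, 0, 2, 2, 0, 2, 2, 0, 1, 0, 1] i

theorem par_spec : ∀ p : Fin 12 ⊕ Fin 15, p ∉ DM → p = .inr 13 ∨
    (MG.Adj p (par p) ∧ par p ∉ DM ∧ rk (par p) < rk p) := by decide

theorem reach : ∀ n : ℕ, ∀ p : Fin 12 ⊕ Fin 15, ∀ hp : p ∉ DM, rk p ≤ n →
    (MG.induce {a | a ∉ DM}).Reachable ⟨p, hp⟩ ⟨.inr 13, by decide⟩ := by
  intro n
  induction n with
  | zero =>
    intro p hp hn
    rcases par_spec p hp with h | h
    · subst h; exact SimpleGraph.Reachable.refl _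
    · omega
  | succ n ih =>
    intro p hp hn
    rcases par_spec p hp with h | ⟨h1, h2, h3⟩
    · subst h; exact SimpleGraph.Reachable.refl _
    · have h4 := ih (par p) h2 (by omega)
      have h5 : (MG.induce {a | a ∉ DM}).Adj ⟨p, hp⟩ ⟨par p, h2⟩ := h1
      exact h5.reachable.trans h4

theorem isOCD_DM : IsOCD MG DM := by
  refine ⟨by decide, ?_⟩
  rintro ⟨p, hp⟩ ⟨q, hq⟩
  exact (reach (rk p) p hp le_rfl).trans (reach (rk q) q hq le_rfl).symm

theorem upper : ocdNum MG ≤ 8 := Nat.sInf_le ⟨DM, isOCD_DM, by decide⟩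

/-! ## Lower bound for the line graph -/

/-- If a property passes along edges of a graph then it passes to reachable vertices. -/
theorem reach_prop {V : Type u} {H : SimpleGraph V} (P : V → Prop)
    (h : ∀ a b, H.Adj a b → P a → P b) {a b : V} (hab : H.Reachable a b) (ha : P a) : P b := by
  obtain ⟨w⟩ := hab
  induction w with
  | nil => exact ha
  | cons hadj _ ih => exact ih (h _ _ hadj ha)

theorem separated {D : Finset (Fin 15)} (hD : IsOCD LG D) (P : Fin 15 → Prop)
    (hP : ∀ a b, a ∉ D → b ∉ D → LG.Adj a b → P a → P b)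
    {a b : Fin 15} (ha : a ∉ D) (hb : b ∉ D) (h : P a) : P b :=
  reach_prop (H := LG.induce {a | a ∉ D}) (fun c => P c.1)
    (fun c d hcd => hP c.1 d.1 c.2 d.2 hcd) (hD.2 ⟨a, ha⟩ ⟨b, hb⟩) h

theorem left12 : ∀ a b : Fin 15, a ≤ 5 → LG.Adj a b → b ≠ 12 → b ≤ 5 := by decide

theorem left13 : ∀ a b : Fin 15, (a ≤ 5 ∨ a = 12) → LG.Adj a b → b ≠ 13 → (b ≤ 5 ∨ b = 12) := by
  decide

theorem left14 : ∀ a b : Fin 15, (a ≤ 5 ∨ a = 12 ∨ a = 13) → LG.Adj a b → b ≠ 14 →
    (b ≤ 5 ∨ b = 12 ∨ b = 13) := by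
  decide

/-- The windmills cannot both meet the complement. -/
theorem sides {D : Finset (Fin 15)} (hD : IsOCD LG D) (hpath : 12 ∈ D ∨ 13 ∈ D ∨ 14 ∈ D)
    {a b : Fin 15} (ha : a ∉ D) (hb : b ∉ D) (ha5 : a ≤ 5) (hb5 : 6 ≤ b) (hb11 : b ≤ 11) :
    False := by
  rcases hpath with h | h | h
  · have := separated hD (fun c => c ≤ 5) (fun c d _ hd hcd hc =>
      left12 c d hc hcd (fun h' => hd (h' ▸ h))) ha hb ha5
    revert this; revert hb5; clear hb; revert b; decide
  · have := separated hD (fun c => c ≤ 5 ∨ c = 12) (fun c d _ hd hcd hc =>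
      left13 c d hc hcd (fun h' => hd (h' ▸ h))) ha hb (Or.inl ha5)
    revert this; revert hb5 hb11; clear hb; revert b; decide
  · have := separated hD (fun c => c ≤ 5 ∨ c = 12 ∨ c = 13) (fun c d _ hd hcd hc =>
      left14 c d hc hcd (fun h' => hd (h' ▸ h))) ha hb (Or.inl ha5)
    revert this; revert hb5 hb11; clear hb; revert b; decide

theorem tri {D : Finset (Fin 15)} (hD : IsOCD LG D) (i j k : Fin 15)
    (h : ∀ b, LG.Adj i b → b = j ∨ b = k) : i ∈ D ∨ j ∈ D ∨ k ∈ D := by
  by_cases hi : i ∈ D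
  · exact Or.inl hi
  · obtain ⟨b, hb, hib⟩ := hD.1 i hi
    rcases h b hib with rfl | rfl
    · exact Or.inr (Or.inl hb)
    · exact Or.inr (Or.inr hb)

theorem nine {D : Finset (Fin 15)} {a b c d e f p q r : Fin 15}
    (h : ({a, b, c, d, e, f, p, q, r} : Finset (Fin 15)) ⊆ D)
    (hc : ({a, b, c, d, e, f, p, q, r} : Finset (Fin 15)).card = 9) : 9 ≤ D.card := by
  rw [← hc]; exact Finset.card_le_card h

theorem lower {D : Finset (Fin 15)} (hD : IsOCD LG D) : 9 ≤ D.card := by
  have hpath : 12 ∈ D ∨ 13 ∈ D ∨ 14 ∈ D := by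
    rcases tri hD 13 12 14 (by decide) with h | h | h
    · exact Or.inr (Or.inl h)
    · exact Or.inl h
    · exact Or.inr (Or.inr h)
  have t1 := tri hD 2 0 1 (by decide)
  have t2 := tri hD 5 3 4 (by decide)
  have t3 := tri hD 8 6 7 (by decide)
  have t4 := tri hD 11 9 10 (by decide)
  obtain ⟨p, hpD, hp⟩ : ∃ p ∈ D, 12 ≤ p := by
    rcases hpath with h | h | h
    · exact ⟨12, h, by decide⟩
    · exact ⟨13, h, by decide⟩
    · exact ⟨14, h, by decide⟩
  by_cases hA : ∃ a : Fin 15, a ≤ 5 ∧ a ∉ D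
  · obtain ⟨a, ha5, haD⟩ := hA
    have hB : ∀ b : Fin 15, 6 ≤ b → b ≤ 11 → b ∈ D := by
      intro b hb6 hb11
      by_contra hb
      exact sides hD hpath haD hb ha5 hb6 hb11
    obtain ⟨q, hqD, hq⟩ : ∃ q ∈ D, q ≤ 2 := by
      rcases t1 with h | h | h
      · exact ⟨2, h, by decide⟩
      · exact ⟨0, h, by decide⟩
      · exact ⟨1, h, by decide⟩
    obtain ⟨r, hrD, hr, hr'⟩ : ∃ r ∈ D, 3 ≤ r ∧ r ≤ 5 := by
      rcases t2 with h | h | h
      · exact ⟨5, h, by decide⟩
      · exact ⟨3, h, by decide⟩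
      · exact ⟨4, h, by decide⟩
    refine nine (a := 6) (b := 7) (c := 8) (d := 9) (e := 10) (f := 11) (p := p) (q := q) (r := r)
      ?_ ?_
    · intro z hz
      simp only [Finset.mem_insert, Finset.mem_singleton] at hz
      rcases hz with rfl | rfl | rfl | rfl | rfl | rfl | rfl | rfl | rfl
      · exact hB _ (by decide) (by decide)
      · exact hB _ (by decide) (by decide)
      · exact hB _ (by decide) (by decide)
      · exact hB _ (by decide) (by decide)
      · exact hB _ (by decide) (by decide)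
      · exact hB _ (by decide) (by decide)
      · exact hpD
      · exact hqD
      · exact hrD
    · clear hpD hqD hrD
      revert p q r
      decide
  · push Not at hA
    obtain ⟨q, hqD, hq, hq'⟩ : ∃ q ∈ D, 6 ≤ q ∧ q ≤ 8 := by
      rcases t3 with h | h | h
      · exact ⟨8, h, by decide⟩
      · exact ⟨6, h, by decide⟩
      · exact ⟨7, h, by decide⟩
    obtain ⟨r, hrD, hr, hr'⟩ : ∃ r ∈ D, 9 ≤ r ∧ r ≤ 11 := by
      rcases t4 with h | h | h
      · exact ⟨11, h, by decide⟩
      · exact ⟨9, h, by decide⟩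
      · exact ⟨10, h, by decide⟩
    refine nine (a := 0) (b := 1) (c := 2) (d := 3) (e := 4) (f := 5) (p := p) (q := q) (r := r)
      ?_ ?_
    · intro z hz
      simp only [Finset.mem_insert, Finset.mem_singleton] at hz
      rcases hz with rfl | rfl | rfl | rfl | rfl | rfl | rfl | rfl | rfl
      · exact hA _ (by decide)
      · exact hA _ (by decide)
      · exact hA _ (by decide)
      · exact hA _ (by decide)
      · exact hA _ (by decide)
      · exact hA _ (by decide)
      · exact hpD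
      · exact hqD
      · exact hrD
    · clear hpD hqD hrD
      revert p q r
      decide

theorem lower' : 9 ≤ ocdNum LG := by
  apply le_csInf
  · refine ⟨_, Finset.univ, ⟨?_, ?_⟩, rfl⟩
    · intro a ha; exact absurd (Finset.mem_univ a) ha
    · rintro ⟨a, ha⟩; exact absurd (Finset.mem_univ a) ha
  · rintro b ⟨D, hD, rfl⟩
    exact lower hD

/-- There is a graph of order 12 whose line graph has a larger outer-connected domination number
than its middle graph. -/
theorem result : ∃ G : SimpleGraph (Fin 12), ocdNum G.lineGraph > ocdNum (middleGraph G) := by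
  refine ⟨exG, ?_⟩
  rw [← ocdNum_iso isoL, ← ocdNum_iso isoM]
  exact lt_of_le_of_lt upper (lt_of_lt_of_le (by norm_num) lower')

end Pool.Agent.Results.MP_9a7beb_co.LineVsMiddle
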